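import Mathlib
import Pool.Agent.H.MP_ee56ef_an.A

set_option autoImplicit false

namespace Pool.Agent.Results.MP_ee56ef_an.Counter

open Finset

/-- achievement set of the multigeometric series -/
def ach {m : ℕ} (k : Fin m → ℕ) (n : ℕ) : Set ℝ :=
  {s | ∃ A : Set (ℕ × Fin m), HasSum (A.indicator fun p => (k p.2 : ℝ) / (n : ℝ) ^ (p.1 + 1)) s}

/-- the set of subsums -/
def subs {m : ℕ} (k : Fin m → ℕ) : Finset ℕ := (univ : Finset (Fin m)).powerset.image fun S => ∑ i ∈ S, k i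

open Pool.Agent.H.MP_ee56ef_an in
theorem result : ∃ (n m : ℕ) (k : Fin m → ℕ), 2 ≤ n ∧ 1 ≤ m ∧ (∀ i, 0 < k i ∧ ¬ n ∣ k i) ∧
    univ.gcd k = 1 ∧ (subs k).card = n ∧ 0 < MeasureTheory.volume (ach k n) ∧
    ∃ a ∈ subs k, ∃ b ∈ subs k, a ≠ b ∧ a % n = b % n := by
  refine ⟨12, 6, ![1, 8, 8, 8, 8, 8], by norm_num, by norm_num, by decide, by decide,
    by decide +kernel, pos _ fun β => ?_, 0, by decide +kernel, 24, by decide +kernel,
    by norm_num, by norm_num⟩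
  have h := prod_sum ![1, 8, 8, 8, 8, 8] fun i => if i = 0 then β 0 else cons false (β i)
  have e : (∑ i, ((![1, 8, 8, 8, 8, 8] : Fin 6 → ℕ) i : ℝ) *
      u (if i = 0 then β 0 else cons false (β i))) = F β / 3 := by
    simp [Fin.sum_univ_six, u_cons, F]
    ring
  rw [e] at h
  exact ⟨_, h⟩

end Pool.Agent.Results.MP_ee56ef_an.Counter
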